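import Mathlib

section

set_option autoImplicit false

namespace Pool.Agent.Lib.MP_eca5e6_al

open Set

/-- A locally finite connected graph distance. -/
structure GeoDist {V : Type} (d : V → V → ℕ) : Prop where
  symm : ∀ x y, d x y = d y x
  tri : ∀ x y z, d x z ≤ d x y + d y z
  zero : ∀ x y, d x y = 0 ↔ x = y
  geo : ∀ x y n, d x y = n + 1 → ∃ z, d x z = n ∧ d z y = 1
  fin : ∀ x n, {y | d x y ≤ n}.Finite

variable {V : Type} {d : V → V → ℕ}

/-- The normalized distance function. -/
def hb (d : V → V → ℕ) (o x : V) : V → ℤ := fun z => (d z x : ℤ) - (d o x : ℤ)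

theorem GeoDist.self (h : GeoDist d) (x : V) : d x x = 0 := (h.zero x x).2 rfl

/-- intermediate points on geodesics -/
theorem GeoDist.mid (h : GeoDist d) (x y : V) (m : ℕ) :
    ∀ n, d x y = n → m ≤ n → ∃ z, d x z = m ∧ d z y = n - m := by
  intro n
  induction n generalizing y with
  | zero =>
    intro hn hm
    have : m = 0 := by omega
    subst this
    exact ⟨y, hn, by simp [h.self]⟩
  | succ n ih =>
    intro hn hm
    rcases Nat.lt_or_ge n m with hlt | hge
    · have : m = n + 1 := by omega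
      subst this
      exact ⟨y, hn, by simp [h.self]⟩
    · obtain ⟨w, hw1, hw2⟩ := h.geo x y n hn
      obtain ⟨z, hz1, hz2⟩ := ih w hw1 hge
      refine ⟨z, hz1, ?_⟩
      have h1 := h.tri z w y
      have h2 := h.tri x z y
      omega

theorem hb_bound (h : GeoDist d) (o x z : V) : |hb d o x z| ≤ (d z o : ℤ) := by
  unfold hb
  have h1 := h.tri z o x
  have h2 := h.tri o z x
  have h3 := h.symm o z
  rw [abs_le]
  constructor <;> push_cast [← @Nat.cast_le ℤ] at * <;> omega

theorem compact_closure (h : GeoDist d) (o : V) : IsCompact (closure (range (hb d o))) := by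
  have hP : IsCompact (Set.pi univ (fun z : V => Set.Icc (-(d z o : ℤ)) (d z o : ℤ))) :=
    isCompact_univ_pi (fun z => (Set.finite_Icc _ _).isCompact)
  refine hP.of_isClosed_subset isClosed_closure ?_
  apply closure_minimal _ hP.isClosed
  rintro _ ⟨x, rfl⟩
  intro z _
  have := hb_bound h o x z
  rw [abs_le] at this
  exact this

/-- neighbourhoods given by finitely many values -/
theorem isOpen_agree (F : Set V) (hF : F.Finite) (k : V → ℤ) :
    IsOpen {f : V → ℤ | ∀ z ∈ F, f z = k z} := by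
  have : {f : V → ℤ | ∀ z ∈ F, f z = k z} = ⋂ z ∈ F, (fun f : V → ℤ => f z) ⁻¹' {k z} := by
    ext f; simp
  rw [this]
  apply hF.isOpen_biInter
  intro z _
  exact (isOpen_discrete _).preimage (continuous_apply z)

/-- Every boundary point takes the value `-m` somewhere. -/
theorem boundary_value (h : GeoDist d) (o : V) (k : V → ℤ)
    (hk : k ∈ closure (range (hb d o)) \ range (hb d o)) (m : ℕ) : ∃ y, k y = -(m : ℤ) := by
  obtain ⟨hk1, hk2⟩ := hk
  have hfin : {y | d o y ≤ m}.Finite := h.fin o m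
  have hO1 := isOpen_agree {y | d o y ≤ m} hfin k
  have hfin2 : (hb d o '' {y | d o y ≤ m}).Finite := hfin.image _
  have hO2 : IsOpen (hb d o '' {y | d o y ≤ m})ᶜ := hfin2.isClosed.isOpen_compl
  have hmem : k ∈ {f : V → ℤ | ∀ z ∈ {y | d o y ≤ m}, f z = k z} ∩
      (hb d o '' {y | d o y ≤ m})ᶜ := by
    refine ⟨fun z _ => rfl, ?_⟩
    rintro ⟨x, _, hx⟩
    exact hk2 ⟨x, hx⟩
  obtain ⟨f, ⟨hf1, hf2⟩, ⟨x, rfl⟩⟩ := mem_closure_iff.1 hk1 _ (hO1.inter hO2) hmem
  have hx : m < d o x := by
    by_contra hcon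
    exact hf2 ⟨x, by simpa using hcon, rfl⟩
  obtain ⟨y, hy1, hy2⟩ := h.mid o x m (d o x) rfl hx.le
  refine ⟨y, ?_⟩
  rw [← hf1 y (by simp [hy1])]
  unfold hb
  rw [hy2]
  push_cast [hx.le]
  ring

/-- The isolating neighbourhood of `b_x`. -/
theorem isolate (h : GeoDist d) (o x x' : V)
    (h1 : ∀ z ∈ {z | d x z ≤ 1}, hb d o x' z = hb d o x z) : x' = x := by
  by_contra hne
  have hxx := h1 x (by simp [h.self])
  have hpos : d x x' ≠ 0 := fun hz => hne ((h.zero x x').1 hz).symm
  obtain ⟨z, hz1, hz2⟩ := h.mid x x' 1 (d x x') rfl (by omega)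
  have hzz := h1 z (by simp [hz1])
  unfold hb at hxx hzz
  rw [h.self] at hxx
  rw [h.symm z x, hz1, hz2] at hzz
  omega

/-- The covering step: if the boundary is countable, spheres satisfy a Kraft type recursion. -/
theorem cover (h : GeoDist d) (o : V)
    (hc : (closure (range (hb d o)) \ range (hb d o)).Countable) (c : ℝ) (hc1 : 1 < c) :
    ∃ (N : ℕ) (I : Type) (_ : Fintype I) (m : I → ℕ) (y : I → V),
      (∀ i, 1 ≤ m i) ∧ (∀ i, m i ≤ N) ∧ (∑ i, (c⁻¹) ^ (m i) ≤ 1) ∧
      ∀ n, N < n → ∀ x, d o x = n → ∃ i, d (y i) x + m i = n := by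
  classical
  set K := closure (range (hb d o)) with hK
  set B := K \ range (hb d o) with hB
  have hcpt : IsCompact K := compact_closure h o
  -- weights
  obtain ⟨e, he⟩ := (Set.countable_iff_exists_injOn.1 hc)
  have hci : c⁻¹ < 1 := inv_lt_one_of_one_lt₀ hc1
  have hci0 : 0 < c⁻¹ := inv_pos.2 (by linarith)
  have hm : ∀ j : ℕ, ∃ m : ℕ, (c⁻¹) ^ m < (1 / 2 : ℝ) ^ (j + 1) := by
    intro j
    exact exists_pow_lt_of_lt_one (by positivity) hci
  choose w hw using hm
  have hw1 : ∀ j, 1 ≤ w j := by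
    intro j
    by_contra hcon
    have h0 : w j = 0 := by omega
    have := hw j
    rw [h0, pow_zero] at this
    have h2 : (1 / 2 : ℝ) ^ (j + 1) ≤ 1 := pow_le_one₀ (by norm_num) (by norm_num)
    linarith
  have hy : ∀ k : B, ∃ y, k.1 y = -((w (e k.1) : ℕ) : ℤ) := fun k =>
    boundary_value h o k.1 k.2 _
  choose y hyk using hy
  -- the open cover
  let U : B ⊕ V → Set (V → ℤ) := fun i => match i with
    | Sum.inl k => {f | ∀ z ∈ ({y k} : Set V), f z = k.1 z}
    | Sum.inr x => {f | ∀ z ∈ {z | d x z ≤ 1}, f z = hb d o x z}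
  have hUo : ∀ i, IsOpen (U i) := by
    rintro (k | x)
    · exact isOpen_agree _ (Set.finite_singleton _) _
    · exact isOpen_agree _ (h.fin x 1) _
  have hcov : K ⊆ ⋃ i, U i := by
    intro f hf
    by_cases hfr : f ∈ range (hb d o)
    · obtain ⟨x, rfl⟩ := hfr
      exact mem_iUnion.2 ⟨Sum.inr x, fun z _ => rfl⟩
    · exact mem_iUnion.2 ⟨Sum.inl ⟨f, hf, hfr⟩, fun z _ => rfl⟩
  obtain ⟨t, ht⟩ := hcpt.elim_finite_subcover U hUo hcov
  let I : Type := {k : B // Sum.inl k ∈ t}
  have hIfin : Finite I := by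
    apply Finite.of_injective (fun i : I => (⟨Sum.inl i.1, i.2⟩ : {x // x ∈ t}))
    intro i j hij
    have h1 := congrArg Subtype.val hij
    exact Subtype.ext (Sum.inl_injective h1)
  have hIft : Fintype I := Fintype.ofFinite I
  let f1 : B ⊕ V → ℕ := fun i => match i with
    | Sum.inl k => w (e k.1)
    | Sum.inr x => d o x
  let N := t.sup f1
  refine ⟨N, I, inferInstance, fun i => w (e i.1.1), fun i => y i.1, fun i => hw1 _, ?_, ?_, ?_⟩
  · intro i
    exact Finset.le_sup (f := f1) i.2
  · have hinj : Function.Injective (fun i : I => e i.1.1) := by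
      intro i j hij
      exact Subtype.ext (Subtype.ext (he i.1.2 j.1.2 hij))
    calc ∑ i : I, (c⁻¹) ^ (w (e i.1.1)) ≤ ∑ i : I, (1 / 2 : ℝ) ^ (e i.1.1 + 1) :=
          Finset.sum_le_sum (fun i _ => (hw _).le)
      _ = ∑ j ∈ Finset.univ.image (fun i : I => e i.1.1), (1 / 2 : ℝ) ^ (j + 1) := by
          rw [Finset.sum_image (fun i _ j _ hij => hinj hij)]
      _ ≤ ∑' j : ℕ, (1 / 2 : ℝ) ^ (j + 1) := by
          apply Summable.sum_le_tsum
          · intro j _; positivity
          · have := summable_geometric_two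
            exact (summable_nat_add_iff 1).2 this
      _ = 1 := by
          have h2 := tsum_geometric_two
          have h3 := summable_geometric_two.tsum_eq_zero_add
          rw [h2] at h3
          simp only [pow_zero] at h3
          linarith
  · intro n hn x hx
    have hxK : hb d o x ∈ K := subset_closure ⟨x, rfl⟩
    obtain ⟨i, hi⟩ := mem_iUnion.1 (ht hxK)
    obtain ⟨hit, hi2⟩ := mem_iUnion.1 hi
    rcases i with k | x0
    · refine ⟨⟨k, hit⟩, ?_⟩
      have h1 := hi2 (y k) (by simp)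
      rw [hyk] at h1
      unfold hb at h1
      simp only
      omega
    · exfalso
      have h1 := isolate h o x0 x hi2
      subst h1
      have h2 : f1 (Sum.inr x) ≤ N := Finset.le_sup (f := f1) hit
      have h3 : d o x ≤ N := h2
      omega

/-- Sphere growth below every exponential. -/
theorem sphere_bound (h : GeoDist d) (o : V) (s : ℕ → ℕ)
    (hs : ∀ x n, {y | d x y = n}.ncard = s n)
    (hc : (closure (range (hb d o)) \ range (hb d o)).Countable) (c : ℝ) (hc1 : 1 < c) :
    ∃ C : ℝ, 0 ≤ C ∧ ∀ n, (s n : ℝ) ≤ C * c ^ n := by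
  classical
  obtain ⟨N, I, hI, m, y, hm1, hmN, hsum, hcov⟩ := cover h o hc c hc1
  have hfin : ∀ x n, {y | d x y = n}.Finite := fun x n =>
    (h.fin x n).subset (fun y hy => le_of_eq hy)
  have hrec : ∀ n, N < n → s n ≤ ∑ i, s (n - m i) := by
    intro n hn
    have hsub : {x | d o x = n} ⊆ ⋃ i ∈ (Finset.univ : Finset I), {x | d (y i) x = n - m i} := by
      intro x hx
      obtain ⟨i, hi⟩ := hcov n hn x hx
      simp only [Finset.mem_univ, iUnion_true, mem_iUnion]
      refine ⟨i, ?_⟩
      show d (y i) x = n - m i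
      omega
    calc s n = {x | d o x = n}.ncard := (hs o n).symm
      _ ≤ (⋃ i ∈ (Finset.univ : Finset I), {x | d (y i) x = n - m i}).ncard := by
          refine Set.ncard_le_ncard hsub ?_
          apply Set.Finite.biUnion (Finset.finite_toSet _)
          intro i _
          exact hfin _ _
      _ ≤ ∑ i, {x | d (y i) x = n - m i}.ncard := by
          apply Finset.set_ncard_biUnion_le
      _ = ∑ i, s (n - m i) := by
          apply Finset.sum_congr rfl
          intro i _
          exact hs _ _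
  let C : ℝ := ∑ j ∈ Finset.range (N + 1), (s j : ℝ)
  refine ⟨C, by positivity, ?_⟩
  have hC0 : 0 ≤ C := by positivity
  intro n
  induction n using Nat.strong_induction_on with
  | _ n ih =>
    rcases Nat.lt_or_ge N n with hn | hn
    · have h1 : (s n : ℝ) ≤ ∑ i, (s (n - m i) : ℝ) := by
        exact_mod_cast hrec n hn
      have h2 : ∑ i, (s (n - m i) : ℝ) ≤ ∑ i, C * (c ^ n * (c⁻¹) ^ (m i)) := by
        apply Finset.sum_le_sum
        intro i _
        have hi1 := hm1 i
        have hi2 := hmN i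
        have h3 := ih (n - m i) (by omega)
        have h4 : c ^ n * (c⁻¹) ^ (m i) = c ^ (n - m i) := by
          have : c ≠ 0 := by linarith
          have h5 : c ^ n = c ^ (n - m i) * c ^ (m i) := by
            rw [← pow_add]
            congr 1
            omega
          rw [h5, inv_pow]
          field_simp
        rw [h4]
        exact h3
      have h3 : ∑ i, C * (c ^ n * (c⁻¹) ^ (m i)) = C * c ^ n * ∑ i, (c⁻¹) ^ (m i) := by
        rw [Finset.mul_sum]
        apply Finset.sum_congr rfl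
        intro i _
        ring
      have h4 : C * c ^ n * ∑ i, (c⁻¹) ^ (m i) ≤ C * c ^ n * 1 := by
        apply mul_le_mul_of_nonneg_left hsum
        positivity
      linarith
    · have h1 : (s n : ℝ) ≤ C := by
        apply Finset.single_le_sum (f := fun j => (s j : ℝ))
        · intro j _; positivity
        · simp; omega
      have h2 : (1 : ℝ) ≤ c ^ n := one_le_pow₀ hc1.le
      nlinarith

theorem ball_le (h : GeoDist d) (o : V) (s : ℕ → ℕ)
    (hs : ∀ x n, {y | d x y = n}.ncard = s n) (n : ℕ) :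
    {y | d o y ≤ n}.ncard ≤ ∑ j ∈ Finset.range (n + 1), s j := by
  classical
  have hfin : ∀ x n, {y | d x y = n}.Finite := fun x n =>
    (h.fin x n).subset (fun y hy => le_of_eq hy)
  have hsub : {y | d o y ≤ n} ⊆ ⋃ j ∈ Finset.range (n + 1), {x | d o x = j} := by
    intro x hx
    simp only [mem_iUnion]
    refine ⟨d o x, ?_, rfl⟩
    simp only [Finset.mem_range]
    have : d o x ≤ n := hx
    omega
  calc {y | d o y ≤ n}.ncard ≤ (⋃ j ∈ Finset.range (n + 1), {x | d o x = j}).ncard := by
          refine Set.ncard_le_ncard hsub ?_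
          apply Set.Finite.biUnion (Finset.finite_toSet _)
          intro i _
          exact hfin _ _
    _ ≤ ∑ j ∈ Finset.range (n + 1), {x | d o x = j}.ncard := by
          apply Finset.set_ncard_biUnion_le
    _ = ∑ j ∈ Finset.range (n + 1), s j := by
          apply Finset.sum_congr rfl
          intro i _
          exact hs _ _

/-- Exponential growth forces an uncountable boundary. -/
theorem main (h : GeoDist d) (o : V) (s : ℕ → ℕ)
    (hs : ∀ x n, {y | d x y = n}.ncard = s n)
    (hexp : ∃ c : ℝ, 1 < c ∧ ∀ n : ℕ, c ^ n ≤ ({y | d o y ≤ n}.ncard : ℝ)) :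
    ¬ (closure (range (hb d o)) \ range (hb d o)).Countable := by
  intro hcount
  obtain ⟨c, hc1, hc⟩ := hexp
  set c' : ℝ := (1 + c) / 2 with hc'
  have hc'1 : 1 < c' := by rw [hc']; linarith
  have hcc : c' < c := by rw [hc']; linarith
  obtain ⟨C, hC0, hC⟩ := sphere_bound h o s hs hcount c' hc'1
  have hball : ∀ n : ℕ, c ^ n ≤ (n + 1) * (C * c' ^ n) := by
    intro n
    calc c ^ n ≤ ({y | d o y ≤ n}.ncard : ℝ) := hc n
      _ ≤ ((∑ j ∈ Finset.range (n + 1), s j : ℕ) : ℝ) := by
          exact_mod_cast ball_le h o s hs n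
      _ = ∑ j ∈ Finset.range (n + 1), (s j : ℝ) := by push_cast; rfl
      _ ≤ ∑ j ∈ Finset.range (n + 1), C * c' ^ n := by
          apply Finset.sum_le_sum
          intro j hj
          have hjn : j ≤ n := by simp at hj; omega
          have h1 := hC j
          have h2 : c' ^ j ≤ c' ^ n := pow_le_pow_right₀ hc'1.le hjn
          have h3 : C * c' ^ j ≤ C * c' ^ n := mul_le_mul_of_nonneg_left h2 hC0
          linarith
      _ = (n + 1) * (C * c' ^ n) := by
          simp
  set r : ℝ := c / c' with hr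
  have hr1 : 1 < r := by
    rw [hr]
    exact (one_lt_div (by linarith)).2 hcc
  have hrn : ∀ n : ℕ, r ^ n ≤ (n + 1) * C := by
    intro n
    rw [hr, div_pow, div_le_iff₀ (by positivity)]
    have := hball n
    linarith
  have hlim := tendsto_pow_const_div_const_pow_of_one_lt 1 hr1
  -- n / r^n → 0
  have hlim0 : Filter.Tendsto (fun n : ℕ => (1 : ℝ) / r ^ n) Filter.atTop (nhds 0) := by
    have := tendsto_pow_const_div_const_pow_of_one_lt 0 hr1
    simpa using this
  have hsum := (hlim.add hlim0).mul_const C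
  simp only [pow_one, zero_add, zero_mul] at hsum
  have hev : ∀ᶠ n : ℕ in Filter.atTop, ((n : ℝ) / r ^ n + 1 / r ^ n) * C < 1 := by
    have := hsum.eventually (gt_mem_nhds (by norm_num : (0 : ℝ) < 1))
    simpa using this
  obtain ⟨n, hn⟩ := hev.exists
  have hrpos : 0 < r ^ n := by positivity
  have h1 := hrn n
  have h2 : ((n : ℝ) / r ^ n + 1 / r ^ n) * C = ((n + 1) * C) / r ^ n := by
    field_simp
  rw [h2, div_lt_one hrpos] at hn
  linarith

end Pool.Agent.Lib.MP_eca5e6_al
end

section

set_option autoImplicit false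

namespace Pool.Agent.Lib.MP_eca5e6_al

open Set

variable {G : Type} [Group G] {S : Finset G} {Γ : SimpleGraph G}

theorem cay_adj (hΓ : Γ = SimpleGraph.fromRel (fun g h : G => g⁻¹ * h ∈ S)) (g h : G) :
    Γ.Adj g h ↔ g ≠ h ∧ (g⁻¹ * h ∈ S ∨ h⁻¹ * g ∈ S) := by
  subst hΓ
  simp [SimpleGraph.fromRel_adj]

theorem cay_adj_mul (hΓ : Γ = SimpleGraph.fromRel (fun g h : G => g⁻¹ * h ∈ S)) (a g h : G)
    (hgh : Γ.Adj g h) : Γ.Adj (a * g) (a * h) := by
  rw [cay_adj hΓ] at hgh ⊢
  obtain ⟨h1, h2⟩ := hgh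
  refine ⟨fun h3 => h1 (mul_left_cancel h3), ?_⟩
  simpa [mul_inv_rev, mul_assoc] using h2

theorem cay_walk_mul (hΓ : Γ = SimpleGraph.fromRel (fun g h : G => g⁻¹ * h ∈ S)) (a g h : G)
    (p : Γ.Walk g h) : ∃ q : Γ.Walk (a * g) (a * h), q.length = p.length := by
  induction p with
  | nil => exact ⟨SimpleGraph.Walk.nil, rfl⟩
  | cons hadj p ih =>
    obtain ⟨q, hq⟩ := ih
    exact ⟨SimpleGraph.Walk.cons (cay_adj_mul hΓ a _ _ hadj) q, by simp [hq]⟩

theorem cay_conn (hS : Subgroup.closure (S : Set G) = ⊤)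
    (hΓ : Γ = SimpleGraph.fromRel (fun g h : G => g⁻¹ * h ∈ S)) : Γ.Connected := by
  have hstep : ∀ g s : G, (s ∈ S ∨ s⁻¹ ∈ S) → Γ.Reachable g (g * s) := by
    intro g s hs
    by_cases h1 : g = g * s
    · rw [← h1]
    · apply SimpleGraph.Adj.reachable
      rw [cay_adj hΓ]
      refine ⟨h1, ?_⟩
      simpa using hs
  have hall : ∀ x : G, ∀ g : G, Γ.Reachable g (g * x) := by
    intro x
    have hx : x ∈ Subgroup.closure (S : Set G) := by rw [hS]; trivial
    induction hx using Subgroup.closure_induction with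
    | mem x hx =>
      intro g
      exact hstep g x (Or.inl (by simpa using hx))
    | one => intro g; rw [mul_one]
    | mul x y _ _ ihx ihy =>
      intro g
      rw [← mul_assoc]
      exact (ihx g).trans (ihy (g * x))
    | inv x _ ih =>
      intro g
      have := ih (g * x⁻¹)
      rw [inv_mul_cancel_right] at this
      exact this.symm
  have hne : Nonempty G := ⟨1⟩
  refine SimpleGraph.Connected.mk ?_
  intro g h
  have := hall (g⁻¹ * h) g
  rwa [mul_inv_cancel_left] at this

theorem cay_dist_mul_le (hS : Subgroup.closure (S : Set G) = ⊤)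
    (hΓ : Γ = SimpleGraph.fromRel (fun g h : G => g⁻¹ * h ∈ S)) (a g h : G) :
    Γ.dist (a * g) (a * h) ≤ Γ.dist g h := by
  obtain ⟨p, hp⟩ := (cay_conn hS hΓ).exists_walk_length_eq_dist g h
  obtain ⟨q, hq⟩ := cay_walk_mul hΓ a g h p
  rw [← hp, ← hq]
  exact SimpleGraph.dist_le q

theorem cay_dist_mul (hS : Subgroup.closure (S : Set G) = ⊤)
    (hΓ : Γ = SimpleGraph.fromRel (fun g h : G => g⁻¹ * h ∈ S)) (a g h : G) :
    Γ.dist (a * g) (a * h) = Γ.dist g h := by
  apply le_antisymm (cay_dist_mul_le hS hΓ a g h)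
  have := cay_dist_mul_le hS hΓ a⁻¹ (a * g) (a * h)
  simpa using this

theorem cay_geo (hS : Subgroup.closure (S : Set G) = ⊤)
    (hΓ : Γ = SimpleGraph.fromRel (fun g h : G => g⁻¹ * h ∈ S)) (x y : G) (n : ℕ)
    (hn : Γ.dist x y = n + 1) : ∃ z, Γ.dist x z = n ∧ Γ.dist z y = 1 := by
  have hc := cay_conn hS hΓ
  obtain ⟨p, hp⟩ := hc.exists_walk_length_eq_dist y x
  rw [SimpleGraph.dist_comm, hn] at hp
  cases p with
  | nil => simp at hp
  | cons hadj q =>
    rename_i w
    refine ⟨w, ?_, ?_⟩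
    · have h1 : Γ.dist w x ≤ q.length := SimpleGraph.dist_le q
      have h2 : q.length = n := by simpa using hp
      have h3 := hc.dist_triangle (u := x) (v := w) (w := y)
      have h4 : Γ.dist w y = 1 := SimpleGraph.dist_eq_one_iff_adj.2 hadj.symm
      rw [SimpleGraph.dist_comm] at h1
      omega
    · exact SimpleGraph.dist_eq_one_iff_adj.2 hadj.symm

theorem cay_fin (hS : Subgroup.closure (S : Set G) = ⊤)
    (hΓ : Γ = SimpleGraph.fromRel (fun g h : G => g⁻¹ * h ∈ S)) (x : G) (n : ℕ) :
    {y | Γ.dist x y ≤ n}.Finite := by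
  classical
  have hc := cay_conn hS hΓ
  induction n with
  | zero =>
    apply (Set.finite_singleton x).subset
    intro y hy
    have h0 : Γ.dist x y = 0 := Nat.le_zero.1 hy
    exact (hc.dist_eq_zero_iff.1 h0).symm
  | succ n ih =>
    have hfin : (⋃ s ∈ (S ∪ S.image (fun t => t⁻¹) : Finset G),
        (fun g : G => g * s) '' {y | Γ.dist x y ≤ n}).Finite := by
      apply Set.Finite.biUnion (Finset.finite_toSet _)
      intro s _
      exact ih.image _
    apply (ih.union hfin).subset
    intro y hy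
    rcases Nat.lt_or_ge n (Γ.dist x y) with h1 | h1
    · right
      have hy' : Γ.dist x y ≤ n + 1 := hy
      have h2 : Γ.dist x y = n + 1 := by omega
      obtain ⟨z, hz1, hz2⟩ := cay_geo hS hΓ x y n h2
      have hadj := (cay_adj hΓ z y).1 (SimpleGraph.dist_eq_one_iff_adj.1 hz2)
      simp only [mem_iUnion]
      refine ⟨z⁻¹ * y, ?_, z, le_of_eq hz1, by simp⟩
      rw [Finset.mem_union, Finset.mem_image]
      rcases hadj.2 with h3 | h3
      · exact Or.inl h3
      · exact Or.inr ⟨y⁻¹ * z, h3, by simp⟩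
    · left
      exact h1

theorem cay_geoDist (hS : Subgroup.closure (S : Set G) = ⊤)
    (hΓ : Γ = SimpleGraph.fromRel (fun g h : G => g⁻¹ * h ∈ S)) :
    GeoDist (fun x y : G => Γ.dist x y) where
  symm := fun _ _ => SimpleGraph.dist_comm
  tri := fun _ _ _ => (cay_conn hS hΓ).dist_triangle
  zero := fun _ _ => (cay_conn hS hΓ).dist_eq_zero_iff
  geo := cay_geo hS hΓ
  fin := cay_fin hS hΓ

theorem cay_sphere (hS : Subgroup.closure (S : Set G) = ⊤)
    (hΓ : Γ = SimpleGraph.fromRel (fun g h : G => g⁻¹ * h ∈ S)) (x : G) (n : ℕ) :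
    {y | Γ.dist x y = n}.ncard = {y | Γ.dist 1 y = n}.ncard := by
  have : {y | Γ.dist x y = n} = (fun y => x * y) '' {y | Γ.dist 1 y = n} := by
    ext y
    simp only [mem_image, Set.mem_ofPred_eq]
    constructor
    · intro hy
      refine ⟨x⁻¹ * y, ?_, by simp⟩
      have := cay_dist_mul hS hΓ x⁻¹ x y
      rw [inv_mul_cancel] at this
      rw [this]
      exact hy
    · rintro ⟨z, hz, rfl⟩
      have := cay_dist_mul hS hΓ x 1 z
      rw [mul_one] at this
      rw [this]
      exact hz
  rw [this, Set.ncard_image_of_injective _ (mul_right_injective x)]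

end Pool.Agent.Lib.MP_eca5e6_al
end
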