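import Pool.Agent.Lib.MP_eca5e6_al.Cayley

section

set_option autoImplicit false

namespace Pool.Agent.Lib.MP_eca5e6_al

open Set Filter Topology

/-! ### A finite invariant set for partial dynamics on a countable compact space -/

/-- A countable compact Hausdorff set, nonempty, has a point that is not an accumulation point. -/
theorem exists_isolated {X : Type*} [TopologicalSpace X] [T2Space X] {M : Set X}
    (hM : IsCompact M) (hc : M.Countable) (hne : M.Nonempty) :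
    ∃ p ∈ M, p ∉ derivedSet M := by
  have : CompactSpace M := isCompact_iff_compactSpace.1 hM
  have : Countable M := hc.to_subtype
  have : Nonempty M := hne.to_subtype
  obtain ⟨p, hp⟩ := nonempty_interior_of_iUnion_of_closed (X := M) (f := fun p : M => ({p} : Set M))
    (fun p => isClosed_singleton) (by ext x; simp)
  obtain ⟨q, hq⟩ := hp
  have hqp : q ∈ ({p} : Set M) := interior_subset hq
  rw [mem_singleton_iff] at hqp
  subst hqp
  refine ⟨q.1, q.2, ?_⟩
  intro hacc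
  rw [mem_derivedSet, accPt_iff_nhds] at hacc
  have hnh : ({q} : Set M) ∈ 𝓝 q := mem_interior_iff_mem_nhds.1 hq
  rw [nhds_subtype_eq_comap, mem_comap] at hnh
  obtain ⟨U, hU, hUq⟩ := hnh
  obtain ⟨y, ⟨hyU, hyM⟩, hyne⟩ := hacc U hU
  have : (⟨y, hyM⟩ : M) ∈ ({q} : Set M) := hUq hyU
  exact hyne (congrArg Subtype.val this)

/-- A family of continuous maps `φ i` injective on `K`, each used only on an open set `D i`, acting on a
countable compact set, has a nonempty finite invariant subset. -/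
theorem exists_finite_invariant {X : Type*} [TopologicalSpace X] [T2Space X] {ι : Type*}
    (D : ι → Set X) (φ : ι → X → X) (hD : ∀ i, IsOpen (D i)) (hφ : ∀ i, Continuous (φ i))
    {K : Set X} (hinj : ∀ i, Set.InjOn (φ i) K) (hK : IsCompact K) (hKc : K.Countable)
    (hne : K.Nonempty) (hinv : ∀ i, ∀ x ∈ K, x ∈ D i → φ i x ∈ K) :
    ∃ M ⊆ K, M.Finite ∧ M.Nonempty ∧ ∀ i, ∀ x ∈ M, x ∈ D i → φ i x ∈ M := by
  let 𝓢 : Set (Set X) := {M | M.Nonempty ∧ IsClosed M ∧ M ⊆ K ∧ ∀ i, ∀ x ∈ M, x ∈ D i → φ i x ∈ M}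
  obtain ⟨M, hMK, hMmin⟩ := zorn_superset_nonempty 𝓢 (by
    intro c hcS hchain hcne
    have hcne' : Nonempty c := hcne.to_subtype
    refine ⟨⋂₀ c, ⟨?_, ?_, ?_, ?_⟩, fun s hs => sInter_subset_of_mem hs⟩
    · rw [sInter_eq_iInter]
      apply IsCompact.nonempty_iInter_of_directed_nonempty_isCompact_isClosed
      · intro s t
        rcases hchain.total s.2 t.2 with h1 | h1
        · exact ⟨s, Subset.rfl, h1⟩
        · exact ⟨t, h1, Subset.rfl⟩
      · exact fun s => (hcS s.2).1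
      · exact fun s => hK.of_isClosed_subset (hcS s.2).2.1 (hcS s.2).2.2.1
      · exact fun s => (hcS s.2).2.1
    · exact isClosed_sInter fun s hs => (hcS hs).2.1
    · obtain ⟨s, hs⟩ := hcne
      exact (sInter_subset_of_mem hs).trans (hcS hs).2.2.1
    · intro i x hx hxD s hs
      exact (hcS hs).2.2.2 i x (hx s hs) hxD) K ⟨hne, hK.isClosed, Subset.rfl, hinv⟩
  obtain ⟨⟨hMne, hMcl, hMsub, hMinv⟩, hmin⟩ := hMmin
  have hMcpt : IsCompact M := hK.of_isClosed_subset hMcl hMsub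
  obtain ⟨p, hpM, hpd⟩ := exists_isolated hMcpt (hKc.mono hMsub) hMne
  have hder : derivedSet M ⊆ M := (isClosed_iff_derivedSet_subset M).1 hMcl
  have hempty : derivedSet M = ∅ := by
    by_contra hcon
    have hne' : (derivedSet M).Nonempty := nonempty_iff_ne_empty.2 hcon
    have hS : derivedSet M ∈ 𝓢 := by
      refine ⟨hne', isClosed_derivedSet M, hder.trans hMsub, ?_⟩
      intro i x hx hxD
      have hxK : x ∈ K := hMsub (hder hx)
      rw [mem_derivedSet, accPt_iff_nhds] at hx ⊢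
      intro U hU
      have h1 : φ i ⁻¹' U ∩ D i ∈ 𝓝 x :=
        inter_mem ((hφ i).continuousAt hU) ((hD i).mem_nhds hxD)
      obtain ⟨y, ⟨⟨hyU, hyD⟩, hyM⟩, hyne⟩ := hx _ h1
      exact ⟨φ i y, ⟨hyU, hMinv i y hyM hyD⟩, fun e => hyne (hinj i (hMsub hyM) hxK e)⟩
    exact hpd (hmin hS hder hpM)
  refine ⟨M, hMsub, ?_, hMne, hMinv⟩
  by_contra hinf
  obtain ⟨x, _, hx⟩ := Set.Infinite.exists_accPt_of_subset_isCompact hinf hMcpt Subset.rfl
  have : x ∈ derivedSet M := hx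
  rw [hempty] at this
  exact this

/-! ### The boundary -/

variable {V : Type} {d : V → V → ℕ}

/-- The horofunction boundary. -/
def bd (d : V → V → ℕ) (o : V) : Set (V → ℤ) := closure (range (hb d o)) \ range (hb d o)

theorem isolate_closure (h : GeoDist d) (o x : V) (f : V → ℤ)
    (hf : f ∈ closure (range (hb d o))) (hfx : ∀ z ∈ {z | d x z ≤ 1}, f z = hb d o x z) :
    f = hb d o x := by
  funext z0
  have hO := isOpen_agree ({z | d x z ≤ 1} ∪ {z0}) ((h.fin x 1).union (Set.finite_singleton z0)) f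
  obtain ⟨g, hg1, x', rfl⟩ := mem_closure_iff.1 hf _ hO (fun z _ => rfl)
  have hx' : x' = x := by
    apply isolate h o x x'
    intro z hz
    rw [hg1 z (Or.inl hz), hfx z hz]
  subst hx'
  exact (hg1 z0 (Or.inr rfl)).symm

theorem bd_compact (h : GeoDist d) (o : V) : IsCompact (bd d o) := by
  have hK := compact_closure h o
  have heq : bd d o = closure (range (hb d o)) ∩
      (⋃ x, {f : V → ℤ | ∀ z ∈ {z | d x z ≤ 1}, f z = hb d o x z})ᶜ := by
    ext f
    simp only [bd, Set.mem_sdiff, mem_inter_iff, mem_compl_iff, mem_iUnion, not_exists]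
    constructor
    · rintro ⟨h1, h2⟩
      refine ⟨h1, fun x hx => h2 ⟨x, (isolate_closure h o x f h1 hx).symm⟩⟩
    · rintro ⟨h1, h2⟩
      refine ⟨h1, ?_⟩
      rintro ⟨x, rfl⟩
      exact h2 x (fun z _ => rfl)
  rw [heq]
  refine hK.inter_right (isOpen_iUnion fun x => isOpen_agree _ (h.fin x 1) _).isClosed_compl

/-- A closed set of points of the compactification that contains infinitely many `b_x` meets the
boundary. -/
theorem bd_meets (h : GeoDist d) (o : V) (X' : Set V) (hX : X'.Infinite) :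
    (closure (hb d o '' X') ∩ bd d o).Nonempty := by
  by_contra hcon
  rw [not_nonempty_iff_eq_empty] at hcon
  have hcl : closure (hb d o '' X') ⊆ closure (range (hb d o)) :=
    closure_mono (image_subset_range _ _)
  have hcpt : IsCompact (closure (hb d o '' X')) :=
    (compact_closure h o).of_isClosed_subset isClosed_closure hcl
  have hsub : closure (hb d o '' X') ⊆
      ⋃ x, {f : V → ℤ | ∀ z ∈ {z | d x z ≤ 1}, f z = hb d o x z} := by
    intro f hf
    by_cases hfr : f ∈ range (hb d o)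
    · obtain ⟨x, rfl⟩ := hfr
      exact mem_iUnion.2 ⟨x, fun z _ => rfl⟩
    · have h1 : f ∈ closure (hb d o '' X') ∩ bd d o := ⟨hf, hcl hf, hfr⟩
      rw [hcon] at h1
      exact h1.elim
  obtain ⟨t, ht⟩ := hcpt.elim_finite_subcover _ (fun x => isOpen_agree _ (h.fin x 1) _) hsub
  apply hX
  apply t.finite_toSet.subset
  intro x hx
  obtain ⟨x0, hx0⟩ := mem_iUnion.1 (ht (subset_closure (mem_image_of_mem _ hx)))
  obtain ⟨hx0t, hx1⟩ := mem_iUnion.1 hx0
  rw [isolate h o x0 x hx1]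
  exact hx0t

theorem closure_zero (o : V) (f : V → ℤ) (hf : f ∈ closure (range (hb d o))) : f o = 0 := by
  have hcl : IsClosed {f : V → ℤ | f o = 0} :=
    isClosed_eq (continuous_apply o) continuous_const
  have : range (hb d o) ⊆ {f : V → ℤ | f o = 0} := by
    rintro _ ⟨x, rfl⟩
    simp [hb]
  exact closure_minimal this hcl hf

/-! ### The group action -/

variable {G : Type} [Group G] {dd : G → G → ℕ}

/-- translation of normalised functions -/
def tr (g : G) (f : G → ℤ) : G → ℤ := fun z => f (g⁻¹ * z) - f g⁻¹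

theorem tr_continuous (g : G) : Continuous (tr g : (G → ℤ) → (G → ℤ)) := by
  apply continuous_pi
  intro z
  exact (continuous_apply _).sub (continuous_apply _)

theorem tr_tr (g k : G) (f : G → ℤ) : tr g (tr k f) = tr (g * k) f := by
  funext z
  simp only [tr, mul_inv_rev, mul_assoc]
  ring

theorem tr_one (f : G → ℤ) (hf : f 1 = 0) : tr 1 f = f := by
  funext z
  simp [tr, hf]

theorem tr_apply_one (g : G) (f : G → ℤ) : tr g f 1 = 0 := by
  simp [tr]

theorem tr_hb (hinv : ∀ a x y, dd (a * x) (a * y) = dd x y) (g x : G) :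
    tr g (hb dd 1 x) = hb dd 1 (g * x) := by
  funext z
  have h1 := hinv g (g⁻¹ * z) x
  have h2 := hinv g g⁻¹ x
  rw [mul_inv_cancel_left] at h1
  rw [mul_inv_cancel] at h2
  simp only [tr, hb, h1, h2]
  ring

theorem tr_closure (hinv : ∀ a x y, dd (a * x) (a * y) = dd x y) (g : G) (f : G → ℤ)
    (hf : f ∈ closure (range (hb dd 1))) : tr g f ∈ closure (range (hb dd 1)) := by
  have h1 : tr g f ∈ tr g '' closure (range (hb dd 1)) := mem_image_of_mem _ hf
  have h2 := image_closure_subset_closure_image (tr_continuous g) h1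
  refine closure_mono ?_ h2
  rintro _ ⟨_, ⟨x, rfl⟩, rfl⟩
  exact ⟨g * x, (tr_hb hinv g x).symm⟩

theorem tr_bd (hinv : ∀ a x y, dd (a * x) (a * y) = dd x y) (g : G) (f : G → ℤ)
    (hf : f ∈ bd dd 1) : tr g f ∈ bd dd 1 := by
  refine ⟨tr_closure hinv g f hf.1, ?_⟩
  rintro ⟨x, hx⟩
  apply hf.2
  refine ⟨g⁻¹ * x, ?_⟩
  rw [← tr_hb hinv g⁻¹ x, hx, tr_tr, inv_mul_cancel, tr_one f (closure_zero 1 f hf.1)]

theorem tr_injOn (g : G) : Set.InjOn (tr g : (G → ℤ) → (G → ℤ)) (bd dd 1) := by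
  intro f hf f' hf' hff
  have h1 := congrArg (tr g⁻¹) hff
  rwa [tr_tr, tr_tr, inv_mul_cancel, tr_one f (closure_zero 1 f hf.1),
    tr_one f' (closure_zero 1 f' hf'.1)] at h1

/-- a boundary point decreases by one along some edge at the base point -/
theorem bd_step {o : V} (h : GeoDist d) (f : V → ℤ) (hf : f ∈ bd d o) :
    ∃ s, d o s = 1 ∧ f s = -1 := by
  have hO1 := isOpen_agree {z | d o z ≤ 1} (h.fin o 1) f
  have hO2 : IsOpen ({hb d o o}ᶜ : Set (V → ℤ)) := isOpen_compl_singleton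
  have hfo : f ∈ ({hb d o o}ᶜ : Set (V → ℤ)) := fun e => hf.2 ⟨o, e.symm⟩
  obtain ⟨g, ⟨hg1, hg2⟩, x, rfl⟩ := mem_closure_iff.1 hf.1 _ (hO1.inter hO2) ⟨fun z _ => rfl, hfo⟩
  have hxo : d o x ≠ 0 := by
    intro e
    rw [h.zero] at e
    subst e
    exact hg2 rfl
  obtain ⟨z, hz1, hz2⟩ := h.mid o x 1 (d o x) rfl (by omega)
  refine ⟨z, hz1, ?_⟩
  rw [← hg1 z (le_of_eq hz1)]
  unfold hb
  rw [hz2]
  omega

theorem zpow_surj {H : Type*} [Group H] (f : H → ℤ) (hf : ∀ a b, f (a * b) = f a + f b)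
    (h0 : H) (hne : f h0 ≠ 0) : ∃ φ : H →* Multiplicative ℤ, Function.Surjective φ := by
  let F : Additive H →+ ℤ := AddMonoidHom.mk' (fun a => f a.toMul) (fun a b => hf _ _)
  obtain ⟨n, hn⟩ := Int.subgroup_cyclic F.range
  rw [← AddSubgroup.zmultiples_eq_closure] at hn
  have hdvd : ∀ a : H, n ∣ f a := by
    intro a
    have : f a ∈ F.range := ⟨Additive.ofMul a, rfl⟩
    rw [hn, Int.mem_zmultiples_iff] at this
    exact this
  have hn0 : n ≠ 0 := by
    rintro rfl
    exact hne (zero_dvd_iff.1 (hdvd h0))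
  obtain ⟨a0, ha0⟩ : ∃ a : H, f a = n := by
    have : n ∈ F.range := by rw [hn]; exact AddSubgroup.mem_zmultiples n
    obtain ⟨a, ha⟩ := this
    exact ⟨a.toMul, ha⟩
  refine ⟨MonoidHom.mk' (fun a => Multiplicative.ofAdd (f a / n)) ?_, ?_⟩
  · intro a b
    rw [hf, Int.add_ediv_of_dvd_left (hdvd a), ofAdd_add]
  · intro z
    have hz : ∀ k : ℕ, f (a0 ^ k) = k * n := by
      intro k
      induction k with
      | zero =>
        have h1 : f 1 = 0 := by
          have := hf 1 1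
          rw [mul_one] at this
          omega
        simp [h1]
      | succ k ih =>
        rw [pow_succ, hf, ih, ha0]
        push_cast
        ring
    have hinv : ∀ a, f a⁻¹ = - f a := by
      intro a
      have h1 : f 1 = 0 := by
        have := hf 1 1
        rw [mul_one] at this
        omega
      have := hf a a⁻¹
      rw [mul_inv_cancel, h1] at this
      omega
    rcases le_total 0 z.toAdd with hz0 | hz0
    · refine ⟨a0 ^ z.toAdd.toNat, ?_⟩
      change Multiplicative.ofAdd (f (a0 ^ z.toAdd.toNat) / n) = z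
      rw [hz, Int.toNat_of_nonneg hz0, Int.mul_ediv_cancel _ hn0]
      rfl
    · refine ⟨(a0 ^ (-z.toAdd).toNat)⁻¹, ?_⟩
      change Multiplicative.ofAdd (f (a0 ^ (-z.toAdd).toNat)⁻¹ / n) = z
      rw [hinv, hz, Int.toNat_of_nonneg (by omega), neg_mul, neg_neg, Int.mul_ediv_cancel _ hn0]
      rfl

/-- **Countable boundary implies virtually indicable.** -/
theorem virtually_indicable [Infinite G] (h : GeoDist dd)
    (hinv : ∀ a x y, dd (a * x) (a * y) = dd x y) (hc : (bd dd 1).Countable) :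
    ∃ H : Subgroup G, H.FiniteIndex ∧ ∃ φ : H →* Multiplicative ℤ, Function.Surjective φ := by
  have hne : (bd dd 1).Nonempty :=
    (bd_meets h 1 (Set.univ : Set G) Set.infinite_univ).mono inter_subset_right
  obtain ⟨M, hMsub, hMfin, ⟨p, hpM⟩, hMinv⟩ := exists_finite_invariant (ι := G)
    (fun _ => Set.univ) (fun g => tr g) (fun _ => isOpen_univ) (fun g => tr_continuous g)
    (fun g => tr_injOn g) (bd_compact h 1) hc hne (fun g f hf _ => tr_bd hinv g f hf)
  have hp := hMsub hpM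
  have hp1 : p 1 = 0 := closure_zero 1 p hp.1
  let H : Subgroup G :=
    { carrier := {g | tr g p = p}
      mul_mem' := by
        intro a b ha hb
        have ha' : tr a p = p := ha
        have hb' : tr b p = p := hb
        change tr (a * b) p = p
        rw [← tr_tr, hb', ha']
      one_mem' := tr_one p hp1
      inv_mem' := by
        intro a ha
        have ha' : tr a p = p := ha
        change tr a⁻¹ p = p
        conv_lhs => rw [← ha']
        rw [tr_tr, inv_mul_cancel, tr_one p hp1] }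
  have hH : ∀ g, g ∈ H ↔ tr g p = p := fun g => Iff.rfl
  have hfinM : Finite M := hMfin
  have hfin : Finite (G ⧸ H) := by
    let F : G ⧸ H → M := Quotient.lift (fun g : G => (⟨tr g p, hMinv g p hpM trivial⟩ : M)) (by
      intro a b hab
      have hab' : a⁻¹ * b ∈ H := QuotientGroup.leftRel_apply.1 hab
      rw [hH] at hab'
      apply Subtype.ext
      change tr a p = tr b p
      conv_lhs => rw [← hab', tr_tr, mul_inv_cancel_left])
    apply Finite.of_injective F
    intro a b hab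
    obtain ⟨a, rfl⟩ := Quotient.exists_rep a
    obtain ⟨b, rfl⟩ := Quotient.exists_rep b
    have h1 : tr a p = tr b p := congrArg Subtype.val hab
    apply Quotient.sound
    apply QuotientGroup.leftRel_apply.2
    rw [hH, ← tr_tr, ← h1, tr_tr, inv_mul_cancel, tr_one p hp1]
  refine ⟨H, Subgroup.finiteIndex_of_finite_quotient, ?_⟩
  have hadd : ∀ g ∈ H, ∀ k, p (g * k) = p g + p k := by
    intro g hg k
    rw [hH] at hg
    have h1 := congrFun hg (g * k)
    have h2 := congrFun hg g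
    simp only [tr, inv_mul_cancel_left, inv_mul_cancel, hp1] at h1 h2
    omega
  obtain ⟨h0, hh0, hne0⟩ : ∃ h0 ∈ H, p h0 ≠ 0 := by
    by_contra hcon
    push Not at hcon
    let F : G ⧸ H → ℤ := Quotient.lift (fun g : G => p g⁻¹) (by
      intro a b hab
      have hab' : a⁻¹ * b ∈ H := QuotientGroup.leftRel_apply.1 hab
      change p a⁻¹ = p b⁻¹
      have h1 := hadd _ hab' b⁻¹
      rw [hcon _ hab', mul_inv_cancel_right, zero_add] at h1
      exact h1)
    have hrange : range p ⊆ range F := by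
      rintro _ ⟨g, rfl⟩
      refine ⟨Quotient.mk _ g⁻¹, ?_⟩
      change p (g⁻¹)⁻¹ = p g
      rw [inv_inv]
    have hfr : (range p).Finite := (Set.finite_range F).subset hrange
    have hinf : (range (fun m : ℕ => -(m : ℤ))).Infinite := by
      apply Set.infinite_range_of_injective
      intro a b hab
      simp only at hab
      omega
    apply hinf
    apply hfr.subset
    rintro _ ⟨m, rfl⟩
    obtain ⟨y, hy⟩ := boundary_value h 1 p hp m
    exact ⟨y, hy⟩
  exact zpow_surj (fun g : H => p g.1) (fun a b => hadd a.1 a.2 b.1) ⟨h0, hh0⟩ hne0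

/-- **Quotients.**  If the boundary is countable then for every normal subgroup `N` of infinite
index there is a nontrivial `w` such that every element of the coset `w ^ k * N` has length at
least `k` times the length of `w`. -/
theorem quotient_undistorted (h : GeoDist dd)
    (hinv : ∀ a x y, dd (a * x) (a * y) = dd x y) (hc : (bd dd 1).Countable)
    (N : Subgroup G) [N.Normal] [Infinite (G ⧸ N)] :
    ∃ w : G, w ≠ 1 ∧ ∀ k : ℕ, ∀ m ∈ N, k * dd 1 w ≤ dd 1 (w ^ k * m) := by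
  classical
  let X' : Set G := {x | ∀ m ∈ N, dd 1 x ≤ dd 1 (x * m)}
  have hX' : X'.Infinite := by
    -- every coset contains a point of X'
    have hmin : ∀ g : G, ∃ x ∈ X', (QuotientGroup.mk x : G ⧸ N) = QuotientGroup.mk g := by
      intro g
      have hne : ∃ n, ∃ m ∈ N, dd 1 (g * m) = n := ⟨_, 1, N.one_mem, rfl⟩
      obtain ⟨m, hm, hmn⟩ := Nat.find_spec hne
      refine ⟨g * m, ?_, ?_⟩
      · intro m' hm'
        rw [hmn, mul_assoc]
        exact Nat.find_min' hne ⟨m * m', N.mul_mem hm hm', rfl⟩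
      · rw [QuotientGroup.eq]
        simpa using hm
    intro hfin
    have hf2 : Finite (G ⧸ N) := by
      have hX'f : Finite X' := hfin
      apply Finite.of_surjective (fun x : X' => (QuotientGroup.mk x.1 : G ⧸ N))
      intro q
      obtain ⟨g, rfl⟩ := QuotientGroup.mk_surjective q
      obtain ⟨x, hx, hxg⟩ := hmin g
      exact ⟨⟨x, hx⟩, hxg⟩
    exact not_finite (G ⧸ N)
  set K := closure (hb dd 1 '' X') ∩ bd dd 1 with hK
  have hKne : K.Nonempty := bd_meets h 1 X' hX'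
  have hKcpt : IsCompact K := (bd_compact h 1).inter_left isClosed_closure
  have hKc : K.Countable := hc.mono inter_subset_right
  have hKinv : ∀ s : G, ∀ f ∈ K, f ∈ {f : G → ℤ | dd 1 s = 1 ∧ f s = -1} → tr s⁻¹ f ∈ K := by
    rintro s f ⟨hf1, hf2⟩ ⟨hs1, hfs⟩
    refine ⟨?_, tr_bd hinv _ _ hf2⟩
    rw [mem_closure_iff]
    intro U hU hfU
    have hO : IsOpen {g : G → ℤ | ∀ z ∈ ({s} : Set G), g z = f z} :=
      isOpen_agree _ (Set.finite_singleton s) f
    have hO2 : IsOpen (tr s⁻¹ ⁻¹' U) := hU.preimage (tr_continuous s⁻¹)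
    obtain ⟨g, ⟨hg1, hg2⟩, x, hx, rfl⟩ := mem_closure_iff.1 hf1 _ (hO.inter hO2)
      ⟨fun z _ => rfl, hfU⟩
    refine ⟨tr s⁻¹ (hb dd 1 x), hg2, s⁻¹ * x, ?_, (tr_hb hinv _ _).symm⟩
    have hsx := hg1 s rfl
    rw [hfs] at hsx
    unfold hb at hsx
    intro m hm
    have h1 := hinv s (1 : G) (s⁻¹ * x)
    have h2 := hinv s (1 : G) (s⁻¹ * x * m)
    rw [mul_one, mul_inv_cancel_left] at h1
    rw [mul_one, mul_assoc, mul_inv_cancel_left] at h2
    rw [← mul_assoc] at h2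
    have h3 := hx m hm
    have h4 := h.tri 1 s (x * m)
    have h5 : s⁻¹ * x * m = s⁻¹ * (x * m) := mul_assoc _ _ _
    rw [h5] at h2 ⊢
    omega
  obtain ⟨M, hMsub, hMfin, ⟨f0, hf0M⟩, hMinv⟩ := exists_finite_invariant (ι := G)
    (fun s => {f : G → ℤ | dd 1 s = 1 ∧ f s = -1}) (fun s => tr s⁻¹)
    (fun s => by
      by_cases hs : dd 1 s = 1
      · have := isOpen_agree ({s} : Set G) (Set.finite_singleton s) (fun _ => (-1 : ℤ))
        convert this using 1
        ext f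
        simp [hs]
      · convert isOpen_empty using 1
        ext f
        simp [hs])
    (fun s => tr_continuous _) (fun s => (tr_injOn s⁻¹).mono inter_subset_right) hKcpt hKc hKne
    hKinv
  have hstep : ∀ f : M, ∃ s, dd 1 s = 1 ∧ f.1 s = -1 := fun f =>
    bd_step h f.1 (hMsub f.2).2
  choose s hs1 hs2 using hstep
  let σ : M → M := fun f => ⟨tr (s f)⁻¹ f.1, hMinv (s f) f.1 f.2 ⟨hs1 f, hs2 f⟩⟩
  let W : ℕ → M → G := fun n => Nat.rec (motive := fun _ => M → G) (fun _ => 1)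
    (fun _ r f => s f * r (σ f)) n
  have hW0 : ∀ f, W 0 f = 1 := fun f => rfl
  have hWs : ∀ n f, W (n + 1) f = s f * W n (σ f) := fun n f => rfl
  have hM1 : ∀ f : M, f.1 1 = 0 := fun f => closure_zero 1 f.1 (hMsub f.2).2.1
  have hWtr : ∀ n f, (σ^[n] f).1 = tr (W n f)⁻¹ f.1 := by
    intro n
    induction n with
    | zero => intro f; rw [hW0, inv_one, tr_one _ (hM1 f)]; rfl
    | succ n ih =>
      intro f
      rw [Function.iterate_succ_apply, ih, hWs, mul_inv_rev, ← tr_tr]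
  have hWval : ∀ (n : ℕ) (f : M), f.1 (W n f) = -(n : ℤ) := by
    intro n
    induction n with
    | zero => intro f; rw [hW0, hM1]; rfl
    | succ n ih =>
      intro f
      have h1 := ih (σ f)
      have h2 : (σ f).1 (W n (σ f)) = f.1 (s f * W n (σ f)) - f.1 (s f) := by
        change tr (s f)⁻¹ f.1 _ = _
        simp [tr]
      rw [hWs]
      have h3 := hs2 f
      push_cast
      omega
  have hWlen : ∀ (n : ℕ) (f : M), dd 1 (W n f) ≤ n := by
    intro n
    induction n with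
    | zero => intro f; rw [hW0, h.self]
    | succ n ih =>
      intro f
      rw [hWs]
      have h1 := h.tri 1 (s f) (s f * W n (σ f))
      have h2 := hinv (s f) 1 (W n (σ f))
      rw [mul_one] at h2
      have h3 := ih (σ f)
      have h4 := hs1 f
      omega
  have hMf : Finite M := hMfin
  obtain ⟨i, j, hij, hijeq⟩ := Finite.exists_ne_map_eq_of_infinite
    (fun n : ℕ => σ^[n] (⟨f0, hf0M⟩ : M))
  obtain ⟨p, n, hn, hpn⟩ : ∃ p : M, ∃ n, 1 ≤ n ∧ σ^[n] p = p := by
    rcases Nat.lt_or_gt_of_ne hij with hlt | hlt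
    · refine ⟨σ^[i] ⟨f0, hf0M⟩, j - i, by omega, ?_⟩
      rw [← Function.iterate_add_apply, Nat.sub_add_cancel hlt.le]
      exact hijeq.symm
    · refine ⟨σ^[j] ⟨f0, hf0M⟩, i - j, by omega, ?_⟩
      rw [← Function.iterate_add_apply, Nat.sub_add_cancel hlt.le]
      exact hijeq
  set w := W n p with hw
  have hwp : tr w⁻¹ p.1 = p.1 := by
    rw [← hWtr n p, hpn]
  have hpw : p.1 w = -(n : ℤ) := hWval n p
  have hpow : ∀ k : ℕ, p.1 (w ^ k) = -((k * n : ℕ) : ℤ) := by
    intro k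
    induction k with
    | zero => rw [pow_zero, hM1]; simp
    | succ k ih =>
      have h1 := congrFun hwp (w ^ k)
      simp only [tr, inv_inv] at h1
      rw [pow_succ', ]
      push_cast at ih ⊢
      rw [show p.1 (w * w ^ k) = p.1 (w ^ k) + p.1 w by omega, ih, hpw]
      ring
  have hmain : ∀ k : ℕ, ∀ m ∈ N, k * n ≤ dd 1 (w ^ k * m) := by
    intro k m hm
    have hpK := (hMsub p.2).1
    have hO : IsOpen {g : G → ℤ | ∀ z ∈ ({w ^ k} : Set G), g z = p.1 z} :=
      isOpen_agree _ (Set.finite_singleton _) p.1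
    obtain ⟨g, hg1, x, hx, rfl⟩ := mem_closure_iff.1 hpK _ hO (fun z _ => rfl)
    have h1 := hg1 (w ^ k) rfl
    rw [hpow] at h1
    unfold hb at h1
    set u := (w ^ k)⁻¹ * x with hu
    have hm' : u⁻¹ * m * u ∈ N := by
      have := (inferInstance : N.Normal).conj_mem m hm u⁻¹
      simpa using this
    have h2 := hx _ hm'
    have h3 : x * (u⁻¹ * m * u) = w ^ k * m * u := by
      rw [hu]
      group
    rw [h3] at h2
    have h4 := h.tri 1 (w ^ k * m) (w ^ k * m * u)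
    have h5 := hinv (w ^ k * m) 1 u
    rw [mul_one] at h5
    have h6 := hinv (w ^ k) 1 u
    rw [mul_one, hu, mul_inv_cancel_left, ← hu] at h6
    omega
  have hlen : dd 1 w ≤ n := hWlen n p
  refine ⟨w, ?_, ?_⟩
  · intro hw1
    have h1 := hmain 1 1 N.one_mem
    rw [hw1] at h1
    simp only [one_mul, one_pow, mul_one, h.self] at h1
    omega
  · intro k m hm
    exact (Nat.mul_le_mul_left k hlen).trans (hmain k m hm)

end Pool.Agent.Lib.MP_eca5e6_al
end

section

set_option autoImplicit false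

namespace Pool.Agent.Lib.MP_eca5e6_al

open Set Filter Topology

/-! ### Minimal invariant sets that meet a given closed set -/

/-- the derived set is invariant under injective continuous maps -/
theorem derived_inv {X : Type*} [TopologicalSpace X] {ψ : X → X} (hψ : Continuous ψ)
    {K C : Set X} (hCK : C ⊆ K) (hKc : IsClosed C) (hinj : Set.InjOn ψ K)
    (hinv : ∀ x ∈ C, ψ x ∈ C) : ∀ x ∈ derivedSet C, ψ x ∈ derivedSet C := by
  intro x hx
  have hder : derivedSet C ⊆ C := (isClosed_iff_derivedSet_subset C).1 hKc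
  have hxK : x ∈ K := hCK (hder hx)
  rw [mem_derivedSet, accPt_iff_nhds] at hx ⊢
  intro U hU
  obtain ⟨y, ⟨hyU, hyC⟩, hyne⟩ := hx _ (hψ.continuousAt hU)
  exact ⟨ψ y, ⟨hyU, hinv y hyC⟩, fun e => hyne (hinj (hCK hyC) hxK e)⟩

/-- Let maps `φ i`, continuous, injective on `K`, preserve the countable compact set `K`, and let
`B ⊆ K` be closed and nonempty. There is a closed invariant set `C ⊆ K` that meets `B` but whose
accumulation points are not in `B`. -/
theorem exists_min_trace {X : Type*} [TopologicalSpace X] [T2Space X] {ι : Type*}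
    (φ : ι → X → X) (hφ : ∀ i, Continuous (φ i))
    {K B : Set X} (hinj : ∀ i, Set.InjOn (φ i) K) (hK : IsCompact K) (hKc : K.Countable)
    (hB : IsClosed B) (hBK : B ⊆ K) (hne : B.Nonempty) (hinv : ∀ i, ∀ x ∈ K, φ i x ∈ K) :
    ∃ C ⊆ K, IsClosed C ∧ (∀ i, ∀ x ∈ C, φ i x ∈ C) ∧ (C ∩ B).Nonempty ∧
      (∀ x ∈ derivedSet C, x ∉ B) := by
  let 𝓢 : Set (Set X) := {M | (M ∩ B).Nonempty ∧ IsClosed M ∧ M ⊆ K ∧ ∀ i, ∀ x ∈ M, φ i x ∈ M}
  obtain ⟨M, hMK, hMmin⟩ := zorn_superset_nonempty 𝓢 (by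
    intro c hcS hchain hcne
    have hcne' : Nonempty c := hcne.to_subtype
    refine ⟨⋂₀ c, ⟨?_, ?_, ?_, ?_⟩, fun s hs => sInter_subset_of_mem hs⟩
    · have h1 : (⋂ s : c, (s.1 ∩ B)).Nonempty := by
        apply IsCompact.nonempty_iInter_of_directed_nonempty_isCompact_isClosed
        · intro s t
          rcases hchain.total s.2 t.2 with h1 | h1
          · exact ⟨s, Subset.rfl, inter_subset_inter_left _ h1⟩
          · exact ⟨t, inter_subset_inter_left _ h1, Subset.rfl⟩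
        · exact fun s => (hcS s.2).1
        · exact fun s => (hK.of_isClosed_subset (hcS s.2).2.1 (hcS s.2).2.2.1).inter_right hB
        · exact fun s => (hcS s.2).2.1.inter hB
      obtain ⟨x, hx⟩ := h1
      rw [mem_iInter] at hx
      obtain ⟨s0⟩ := hcne'
      exact ⟨x, fun s hs => (hx ⟨s, hs⟩).1, (hx s0).2⟩
    · exact isClosed_sInter fun s hs => (hcS hs).2.1
    · obtain ⟨s, hs⟩ := hcne
      exact (sInter_subset_of_mem hs).trans (hcS hs).2.2.1
    · intro i x hx s hs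
      exact (hcS hs).2.2.2 i x (hx s hs)) K
      ⟨by rwa [inter_eq_right.2 hBK], hK.isClosed, Subset.rfl, hinv⟩
  obtain ⟨⟨hMne, hMcl, hMsub, hMinv⟩, hmin⟩ := hMmin
  refine ⟨M, hMsub, hMcl, hMinv, hMne, ?_⟩
  have hMcpt : IsCompact M := hK.of_isClosed_subset hMcl hMsub
  have hMne' : M.Nonempty := hMne.mono inter_subset_left
  obtain ⟨p, hpM, hpd⟩ := exists_isolated hMcpt (hKc.mono hMsub) hMne'
  have hder : derivedSet M ⊆ M := (isClosed_iff_derivedSet_subset M).1 hMcl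
  intro x hx hxB
  have hS : derivedSet M ∈ 𝓢 := by
    refine ⟨⟨x, hx, hxB⟩, isClosed_derivedSet M, hder.trans hMsub, ?_⟩
    intro i
    exact derived_inv (hφ i) hMsub hMcl (hinj i) (hMinv i)
  exact hpd (hmin hS hder hpM)

/-! ### Infinite quotients of finite-index subgroups -/

variable {G : Type} [Group G] {dd : G → G → ℕ}

theorem bd_val_le (h : GeoDist dd) (f : G → ℤ) (hf : f ∈ bd dd 1) (x y : G) :
    f x ≤ f y + dd x y := by
  have hcl : IsClosed {f : G → ℤ | f x ≤ f y + dd x y} :=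
    isClosed_le (continuous_apply x) ((continuous_apply y).add continuous_const)
  have hsub : range (hb dd 1) ⊆ {f : G → ℤ | f x ≤ f y + dd x y} := by
    rintro _ ⟨z, rfl⟩
    change ((dd x z : ℤ) - dd 1 z) ≤ ((dd y z : ℤ) - dd 1 z) + dd x y
    have := h.tri x y z
    push_cast [← @Nat.cast_le ℤ] at this
    omega
  exact closure_minimal hsub hcl hf.1

theorem bd_le_len (h : GeoDist dd) (f : G → ℤ) (hf : f ∈ bd dd 1) (x : G) :
    f x ≤ dd 1 x := by
  have h1 := bd_val_le h f hf x 1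
  rw [closure_zero 1 f hf.1, h.symm x 1] at h1
  omega

theorem bd_ge_len (h : GeoDist dd) (f : G → ℤ) (hf : f ∈ bd dd 1) (x : G) :
    -(dd 1 x : ℤ) ≤ f x := by
  have h1 := bd_val_le h f hf 1 x
  rw [closure_zero 1 f hf.1] at h1
  omega

/-- a descending geodesic ray of a boundary point -/
theorem bd_ray (h : GeoDist dd) (hinv : ∀ a x y, dd (a * x) (a * y) = dd x y)
    (f : G → ℤ) (hf : f ∈ bd dd 1) :
    ∃ z : ℕ → G, z 0 = 1 ∧ (∀ k, f (z k) = -(k : ℤ)) ∧
      ∀ i j, i ≤ j → dd (z i) (z j) = j - i := by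
  have hstep : ∀ p : G, ∃ s : G, f (p * s) = f p - 1 ∧ dd 1 s = 1 := by
    intro p
    obtain ⟨s, hs1, hs2⟩ := bd_step h (tr p⁻¹ f) (tr_bd hinv _ _ hf)
    refine ⟨s, ?_, hs1⟩
    simp only [tr, inv_inv] at hs2
    omega
  choose s hs1 hs2 using hstep
  let z : ℕ → G := fun n => Nat.rec (motive := fun _ => G) 1 (fun _ p => p * s p) n
  have hz0 : z 0 = 1 := rfl
  have hzs : ∀ n, z (n + 1) = z n * s (z n) := fun n => rfl
  have hf0 : f 1 = 0 := closure_zero 1 f hf.1
  have hval : ∀ k, f (z k) = -(k : ℤ) := by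
    intro k
    induction k with
    | zero => rw [hz0, hf0]; simp
    | succ k ih => rw [hzs, hs1, ih]; push_cast; ring
  refine ⟨z, hz0, hval, ?_⟩
  have hup : ∀ i n, dd (z i) (z (i + n)) ≤ n := by
    intro i n
    induction n with
    | zero => simp [h.self]
    | succ n ih =>
      have h1 := h.tri (z i) (z (i + n)) (z (i + n + 1))
      have h2 := hinv (z (i + n)) 1 (s (z (i + n)))
      rw [mul_one, ← hzs, hs2] at h2
      rw [← add_assoc]
      omega
  intro i j hij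
  have h1 := hup i (j - i)
  rw [Nat.add_sub_cancel' hij] at h1
  have h2 := bd_val_le h f hf (z i) (z j)
  rw [hval, hval] at h2
  omega

omit [Group G] in
theorem exists_min_on (f : G → ℤ) (X : Set G) (hX : X.Nonempty) (b : ℤ) (hb : ∀ x ∈ X, b ≤ f x) :
    ∃ u ∈ X, ∀ x ∈ X, f u ≤ f x := by
  obtain ⟨x0, hx0⟩ := hX
  obtain ⟨lb, ⟨u, hu, hul⟩, hlb⟩ := Int.exists_least_of_bdd (P := fun z => ∃ x ∈ X, f x = z)
    ⟨b, by rintro z ⟨x, hx, rfl⟩; exact hb x hx⟩ ⟨f x0, x0, hx0, rfl⟩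
  exact ⟨u, hu, fun x hx => by rw [hul]; exact hlb _ ⟨x, hx, rfl⟩⟩

/-- the boundary contains functions that are nonnegative on a given subgroup of infinite index -/
theorem nonneg_nonempty (h : GeoDist dd)
    (hinv : ∀ a x y, dd (a * x) (a * y) = dd x y) (N : Subgroup G) [Infinite (G ⧸ N)] :
    ∃ f ∈ bd dd 1, ∀ n ∈ N, 0 ≤ f n := by
  classical
  let X' : Set G := {x | ∀ m ∈ N, dd 1 x ≤ dd 1 (m * x)}
  have hX' : X'.Infinite := by
    have hmin : ∀ g : G, ∃ x ∈ X', (QuotientGroup.mk x⁻¹ : G ⧸ N) = QuotientGroup.mk g := by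
      intro g
      have hne : ∃ n, ∃ m ∈ N, dd 1 (m * g⁻¹) = n := ⟨_, 1, N.one_mem, rfl⟩
      obtain ⟨m, hm, hmn⟩ := Nat.find_spec hne
      refine ⟨m * g⁻¹, ?_, ?_⟩
      · intro m' hm'
        rw [hmn, ← mul_assoc]
        exact Nat.find_min' hne ⟨m' * m, N.mul_mem hm' hm, rfl⟩
      · rw [QuotientGroup.eq]
        simpa using hm
    intro hfin
    have hf2 : Finite (G ⧸ N) := by
      have hX'f : Finite X' := hfin
      apply Finite.of_surjective (fun x : X' => (QuotientGroup.mk x.1⁻¹ : G ⧸ N))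
      intro q
      obtain ⟨g, rfl⟩ := QuotientGroup.mk_surjective q
      obtain ⟨x, hx, hxg⟩ := hmin g
      exact ⟨⟨x, hx⟩, hxg⟩
    exact not_finite (G ⧸ N)
  obtain ⟨f, hf1, hf2⟩ := bd_meets h 1 X' hX'
  refine ⟨f, hf2, ?_⟩
  have hcl : IsClosed {f : G → ℤ | ∀ n ∈ N, 0 ≤ f n} := by
    have : {f : G → ℤ | ∀ n ∈ N, 0 ≤ f n} = ⋂ n ∈ N, {f : G → ℤ | 0 ≤ f n} := by
      ext f; simp
    rw [this]
    exact isClosed_biInter fun n _ => isClosed_le continuous_const (continuous_apply n)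
  refine closure_minimal ?_ hcl hf1
  rintro _ ⟨x, hx, rfl⟩ n hn
  change (0 : ℤ) ≤ (dd n x : ℤ) - dd 1 x
  have h1 := hx n⁻¹ (N.inv_mem hn)
  have h2 := hinv n 1 (n⁻¹ * x)
  rw [mul_one, mul_inv_cancel_left] at h2
  omega

/-- **Quotients.**  Let the boundary be countable, `G₀` a subgroup of finite index (`T` contains
representatives of the cosets `G₀ t`) and `N` a subgroup of `G₀`, normalized by `G₀` and of infinite
index. Then there are `t ∈ T`, a subgroup `H` of finite index with `N ≤ H ≤ G₀` and `q`, additive on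
`H`, zero on `N`, with `|q x| ≤ |t⁻¹ x t|` for all `x ∈ H`, with equality for some `w ≠ 1`. -/
theorem quotient_tight (h : GeoDist dd)
    (hinv : ∀ a x y, dd (a * x) (a * y) = dd x y) (hc : (bd dd 1).Countable)
    (G₀ : Subgroup G) [G₀.FiniteIndex] (T : Finset G) (hT : ∀ z : G, ∃ t ∈ T, z * t⁻¹ ∈ G₀)
    (N : Subgroup G) (hN0 : N ≤ G₀)
    (hNn : ∀ g ∈ G₀, ∀ n ∈ N, g * n * g⁻¹ ∈ N) [Infinite (G ⧸ N)] :
    ∃ t ∈ T, ∃ H : Subgroup G, N ≤ H ∧ H ≤ G₀ ∧ H.FiniteIndex ∧ ∃ q : G → ℤ,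
      (∀ x ∈ H, ∀ y ∈ H, q (x * y) = q x + q y) ∧ (∀ x ∈ N, q x = 0) ∧
      (∀ x ∈ H, |q x| ≤ dd 1 (t⁻¹ * x * t)) ∧
      ∃ w ∈ H, w ≠ 1 ∧ q w = dd 1 (t⁻¹ * w * t) := by
  classical
  -- the minimal closed set
  set B : Set (G → ℤ) := bd dd 1 ∩ {f | ∀ n ∈ N, 0 ≤ f n} with hBdef
  have hclc : ∀ c : ℤ, IsClosed {f : G → ℤ | ∀ n ∈ N, c ≤ f n} := by
    intro c
    have : {f : G → ℤ | ∀ n ∈ N, c ≤ f n} = ⋂ n ∈ N, {f : G → ℤ | c ≤ f n} := by
      ext f; simp
    rw [this]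
    exact isClosed_biInter fun n _ => isClosed_le continuous_const (continuous_apply n)
  have hBcl : IsClosed B := (bd_compact h 1).isClosed.inter (hclc 0)
  obtain ⟨f0, hf0, hf0N⟩ := nonneg_nonempty h hinv N
  obtain ⟨C, hCK, hCcl, hCinv, ⟨b, hbC, hbB⟩, hCB⟩ := exists_min_trace (ι := G₀)
    (fun g => tr g.1) (fun g => tr_continuous g.1) (fun g => tr_injOn g.1) (bd_compact h 1) hc
    hBcl inter_subset_left ⟨f0, hf0, hf0N⟩ (fun g f hf => tr_bd hinv g.1 f hf)
  have hCcpt : IsCompact C := (bd_compact h 1).of_isClosed_subset hCcl hCK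
  have hC1 : ∀ f ∈ C, f 1 = 0 := fun f hf => closure_zero 1 f (hCK hf).1
  -- finiteness
  have hFS : ∀ c : ℤ, {f | f ∈ C ∧ ∀ n ∈ N, c ≤ f n}.Finite := by
    intro c
    by_contra hinf
    obtain ⟨x, hxC, hx⟩ := Set.Infinite.exists_accPt_of_subset_isCompact hinf hCcpt
      (fun f hf => hf.1)
    have hx1 : x ∈ derivedSet {f | f ∈ C ∧ ∀ n ∈ N, c ≤ f n} := hx
    have hFScl : IsClosed {f | f ∈ C ∧ ∀ n ∈ N, c ≤ f n} := hCcl.inter (hclc c)
    have hx2 := (isClosed_iff_derivedSet_subset _).1 hFScl hx1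
    have hx3 : x ∈ derivedSet C := derivedSet_mono _ _ (fun f hf => hf.1) hx1
    obtain ⟨u, hu, humin⟩ := exists_min_on x (N : Set G) ⟨1, N.one_mem⟩ c hx2.2
    have hx4 : tr u⁻¹ x ∈ derivedSet C :=
      derived_inv (tr_continuous u⁻¹) hCK hCcl (tr_injOn u⁻¹)
        (fun f hf => hCinv ⟨u⁻¹, G₀.inv_mem (hN0 hu)⟩ f hf) x hx3
    refine hCB _ hx4 ⟨tr_bd hinv _ _ (hCK hxC), ?_⟩
    intro n hn
    have := humin (u * n) (N.mul_mem hu hn)
    simp only [tr, inv_inv]
    omega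
  -- the ray
  obtain ⟨z, hz0, hz1, hz2⟩ := bd_ray h hinv b (hCK hbC)
  choose t htT htG using fun k => hT (z k)
  obtain ⟨c, hcT⟩ : ∃ c : ℕ, ∀ s ∈ T, dd 1 s ≤ c := ⟨T.sup (dd 1), fun s hs => Finset.le_sup hs⟩
  have hinvlen : ∀ a, dd 1 a⁻¹ = dd 1 a := by
    intro a
    have h1 := hinv a 1 a⁻¹
    rw [mul_one, mul_inv_cancel] at h1
    rw [← h1, h.symm]
  have hzlen : ∀ k, dd 1 (z k) ≤ k := by
    intro k
    have h2 := hz2 0 k (Nat.zero_le k)
    rw [hz0] at h2
    omega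
  -- lower bound on cosets
  have hlow : ∀ f ∈ C, ∀ e : ℤ, (∀ n ∈ N, -e ≤ f n) → ∀ g ∈ G₀, ∀ n ∈ N,
      -e - dd 1 g ≤ f (g * n) := by
    intro f hf e he g hg n hn
    have h1 := he _ (hNn g hg n hn)
    have h2 := bd_val_le h f (hCK hf) (g * n * g⁻¹) (g * n)
    have h3 := hinv (g * n) g⁻¹ 1
    rw [mul_one, h.symm g⁻¹ 1, hinvlen] at h3
    omega
  set g : ℕ → G := fun k => z k * (t k)⁻¹ with hgdef
  have hgt : ∀ k, g k * t k = z k := fun k => inv_mul_cancel_right _ _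
  have hgC : ∀ k, tr (g k)⁻¹ b ∈ {f | f ∈ C ∧ ∀ n ∈ N, -(2 * c : ℤ) ≤ f n} := by
    intro k
    refine ⟨hCinv ⟨(g k)⁻¹, G₀.inv_mem (htG k)⟩ b hbC, ?_⟩
    intro n hn
    simp only [tr, inv_inv]
    have h1 := hlow b hbC 0 (by simpa using hbB.2) (g k) (htG k) n hn
    have h2 := bd_val_le h b (hCK hbC) (g k) (z k)
    have h3 := hinv (g k) 1 (t k)
    rw [mul_one, hgt] at h3
    have h4 := hcT _ (htT k)
    have h5 := h.tri 1 (z k) (g k)
    rw [h.symm (z k) (g k)] at h5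
    have h6 := hzlen k
    rw [hz1] at h2
    omega
  have hFSf : Finite {f | f ∈ C ∧ ∀ n ∈ N, -(2 * c : ℤ) ≤ f n} := hFS _
  obtain ⟨i, j, hij, hijeq⟩ := Finite.exists_ne_map_eq_of_infinite
    (fun n : ℕ => ((⟨t n, htT n⟩ : T),
      (⟨tr (g n)⁻¹ b, hgC n⟩ : {f | f ∈ C ∧ ∀ n ∈ N, -(2 * c : ℤ) ≤ f n})))
  wlog hlt : i < j generalizing i j with H
  · exact H j i hij.symm hijeq.symm (lt_of_le_of_ne (not_lt.1 hlt) hij.symm)
  have htij : t i = t j := congrArg (fun p => (p.1 : G)) hijeq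
  have hfij : tr (g i)⁻¹ b = tr (g j)⁻¹ b := congrArg (fun p => (p.2 : G → ℤ)) hijeq
  clear hijeq
  obtain ⟨f, hfdef⟩ : ∃ f, f = tr (g i)⁻¹ b := ⟨_, rfl⟩
  have hfC : f ∈ C := by rw [hfdef]; exact (hgC i).1
  have hfN : ∀ n ∈ N, -(2 * c : ℤ) ≤ f n := by rw [hfdef]; exact (hgC i).2
  have hfK := hCK hfC
  have hf1 : f 1 = 0 := hC1 f hfC
  obtain ⟨w, hw⟩ : ∃ w, w = (g i)⁻¹ * g j := ⟨_, rfl⟩
  have hwG : w ∈ G₀ := by rw [hw]; exact G₀.mul_mem (G₀.inv_mem (htG i)) (htG j)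
  have hwf : tr w f = f := by
    have h1 : f = tr (g j)⁻¹ b := hfdef.trans hfij
    conv_lhs => rw [h1, tr_tr, hw, mul_inv_cancel_right, ← hfdef]
  -- the stabilizer
  have hadd : ∀ s, tr s f = f → ∀ x, f (s * x) = f s + f x := by
    intro s hs x
    have h1 := congrFun hs (s * x)
    have h2 := congrFun hs s
    simp only [tr, inv_mul_cancel_left, inv_mul_cancel, hf1] at h1 h2
    omega
  let St : Subgroup G :=
    { carrier := {s | s ∈ G₀ ∧ tr s f = f}
      mul_mem' := by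
        rintro a b ⟨ha0, ha⟩ ⟨hb0, hb⟩
        refine ⟨G₀.mul_mem ha0 hb0, ?_⟩
        rw [← tr_tr, hb, ha]
      one_mem' := ⟨G₀.one_mem, tr_one f hf1⟩
      inv_mem' := by
        rintro a ⟨ha0, ha⟩
        refine ⟨G₀.inv_mem ha0, ?_⟩
        conv_lhs => rw [← ha]
        rw [tr_tr, inv_mul_cancel, tr_one f hf1] }
  have hSt : ∀ s, s ∈ St ↔ s ∈ G₀ ∧ tr s f = f := fun s => Iff.rfl
  have haddS : ∀ s ∈ St, ∀ x, f (s * x) = f s + f x := fun s hs => hadd s ((hSt s).1 hs).2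
  have hinvS : ∀ s ∈ St, f s⁻¹ = - f s := by
    intro s hs
    have := haddS s hs s⁻¹
    rw [mul_inv_cancel, hf1] at this
    omega
  have hpowS : ∀ s ∈ St, ∀ k : ℕ, f (s ^ k) = k * f s := by
    intro s hs k
    induction k with
    | zero => rw [pow_zero, hf1]; simp
    | succ k ih => rw [pow_succ', haddS s hs, ih]; push_cast; ring
  -- `f` vanishes on `N ∩ St`
  have hNS1 : ∀ s ∈ St, s ∈ N → 0 ≤ f s := by
    intro s hs hsN
    by_contra hneg
    have h1 := hfN _ (N.pow_mem hsN (2 * c + 1))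
    rw [hpowS s hs] at h1
    have h2 : f s ≤ -1 := by omega
    have h3 : ((2 * c + 1 : ℕ) : ℤ) * f s ≤ ((2 * c + 1 : ℕ) : ℤ) * (-1) :=
      mul_le_mul_of_nonneg_left h2 (by positivity)
    push_cast at h1 h3
    linarith
  have hNS : ∀ s ∈ St, s ∈ N → f s = 0 := by
    intro s hs hsN
    have h1 := hNS1 s hs hsN
    have h2 := hNS1 s⁻¹ (St.inv_mem hs) (N.inv_mem hsN)
    rw [hinvS s hs] at h2
    omega
  -- the subgroup `H = St * N`
  have hnorm : ∀ s ∈ St, ∀ n ∈ N, s⁻¹ * n * s ∈ N := by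
    intro s hs n hn
    have := hNn s⁻¹ (G₀.inv_mem ((hSt s).1 hs).1) n hn
    simpa using this
  let H : Subgroup G :=
    { carrier := {x | ∃ s ∈ St, s⁻¹ * x ∈ N}
      mul_mem' := by
        rintro x y ⟨s, hs, hsx⟩ ⟨s', hs', hsy⟩
        refine ⟨s * s', St.mul_mem hs hs', ?_⟩
        have h1 := N.mul_mem (hnorm s' hs' _ hsx) hsy
        have h2 : s'⁻¹ * (s⁻¹ * x) * s' * (s'⁻¹ * y) = (s * s')⁻¹ * (x * y) := by group
        rwa [h2] at h1
      one_mem' := ⟨1, St.one_mem, by simp⟩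
      inv_mem' := by
        rintro x ⟨s, hs, hsx⟩
        refine ⟨s⁻¹, St.inv_mem hs, ?_⟩
        have h1 := hNn s ((hSt s).1 hs).1 _ (N.inv_mem hsx)
        have h2 : s * (s⁻¹ * x)⁻¹ * s⁻¹ = s⁻¹⁻¹ * x⁻¹ := by group
        rwa [h2] at h1 }
  have hH : ∀ x, x ∈ H ↔ ∃ s ∈ St, s⁻¹ * x ∈ N := fun x => Iff.rfl
  have hNH : N ≤ H := fun n hn => ⟨1, St.one_mem, by simpa using hn⟩
  have hHG : H ≤ G₀ := by
    rintro x ⟨s, hs, hsx⟩
    have h1 := G₀.mul_mem ((hSt s).1 hs).1 (hN0 hsx)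
    rwa [mul_inv_cancel_left] at h1
  -- finite index
  have hFS0 : Finite {f | f ∈ C ∧ ∀ n ∈ N, (0 : ℤ) ≤ f n} := hFS 0
  have hHfin : H.FiniteIndex := by
    have hmin : ∀ a : G₀, ∃ u ∈ {y : G | a.1 * y ∈ N}, ∀ y ∈ {y : G | a.1 * y ∈ N}, f u ≤ f y := by
      intro a
      refine exists_min_on f _ ⟨a.1⁻¹, by simp⟩ (-(2 * c : ℤ) - dd 1 a.1⁻¹) ?_
      intro y hy
      have h1 := hlow f hfC (2 * c) hfN a.1⁻¹ (G₀.inv_mem a.2) _ hy
      rwa [inv_mul_cancel_left] at h1
    choose u hu1 hu2 using hmin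
    have huG : ∀ a, u a ∈ G₀ := by
      intro a
      have h1 := G₀.mul_mem (G₀.inv_mem a.2) (hN0 (hu1 a))
      rwa [inv_mul_cancel_left] at h1
    have hv : ∀ a, tr (u a)⁻¹ f ∈ {f | f ∈ C ∧ ∀ n ∈ N, (0 : ℤ) ≤ f n} := by
      intro a
      refine ⟨hCinv ⟨(u a)⁻¹, G₀.inv_mem (huG a)⟩ f hfC, ?_⟩
      intro n hn
      have h1 := hu2 a (u a * n) (by
        show a.1 * (u a * n) ∈ N
        rw [← mul_assoc]
        exact N.mul_mem (hu1 a) hn)
      simp only [tr, inv_inv]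
      omega
    have hkey : ∀ a a' : G₀, tr (u a)⁻¹ f = tr (u a')⁻¹ f → (a.1⁻¹ * a'.1) ∈ H := by
      intro a a' haa
      refine ⟨u a * (u a')⁻¹, (hSt _).2 ⟨G₀.mul_mem (huG a) (G₀.inv_mem (huG a')), ?_⟩, ?_⟩
      · rw [← tr_tr, ← haa, tr_tr, mul_inv_cancel, tr_one f hf1]
      · have h1 := N.mul_mem (hu1 a') (N.inv_mem (hu1 a))
        have h2 := hNn a'.1⁻¹ (G₀.inv_mem a'.2) _ h1
        have h3 : a'.1⁻¹ * (a'.1 * u a' * (a.1 * u a)⁻¹) * a'.1⁻¹⁻¹ =
            (u a * (u a')⁻¹)⁻¹ * (a.1⁻¹ * a'.1) := by group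
        rwa [h3] at h2
    have hfinq : Finite (G₀ ⧸ H.subgroupOf G₀) := by
      apply Finite.of_injective (fun q : G₀ ⧸ H.subgroupOf G₀ =>
        (⟨tr (u q.out)⁻¹ f, hv q.out⟩ : {f | f ∈ C ∧ ∀ n ∈ N, (0 : ℤ) ≤ f n}))
      intro q q' hqq
      have h1 := hkey q.out q'.out (congrArg Subtype.val hqq)
      rw [← q.out_eq, ← q'.out_eq]
      apply Quotient.sound
      apply QuotientGroup.leftRel_apply.2
      rw [Subgroup.mem_subgroupOf]
      exact h1
    have h1 : H.relIndex G₀ ≠ 0 := by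
      unfold Subgroup.relIndex
      exact Subgroup.FiniteIndex.index_ne_zero (self := Subgroup.finiteIndex_of_finite_quotient)
    constructor
    rw [← Subgroup.relIndex_mul_index hHG]
    exact mul_ne_zero h1 Subgroup.FiniteIndex.index_ne_zero
  -- the homomorphism
  let q : G → ℤ := fun x => if hx : ∃ s ∈ St, s⁻¹ * x ∈ N then - f (Classical.choose hx) else 0
  have hq : ∀ x s, s ∈ St → s⁻¹ * x ∈ N → q x = - f s := by
    intro x s hs hsx
    have hx : ∃ s ∈ St, s⁻¹ * x ∈ N := ⟨s, hs, hsx⟩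
    have h1 := Classical.choose_spec hx
    have h2 : q x = - f (Classical.choose hx) := by
      simp only [q]
      rw [dif_pos hx]
    rw [h2]
    obtain ⟨s', hs'⟩ : ∃ s', s' = Classical.choose hx := ⟨_, rfl⟩
    rw [← hs'] at h1 ⊢
    have h3 : s'⁻¹ * s ∈ N := by
      have h4 := N.mul_mem h1.2 (N.inv_mem hsx)
      have h5 : s'⁻¹ * x * (s⁻¹ * x)⁻¹ = s'⁻¹ * s := by group
      rwa [h5] at h4
    have h6 := hNS _ (St.mul_mem (St.inv_mem h1.1) hs) h3
    have h7 := haddS s' h1.1 (s'⁻¹ * s)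
    rw [mul_inv_cancel_left, h6] at h7
    omega
  have hqadd : ∀ x ∈ H, ∀ y ∈ H, q (x * y) = q x + q y := by
    rintro x ⟨s, hs, hsx⟩ y ⟨s', hs', hsy⟩
    rw [hq x s hs hsx, hq y s' hs' hsy, hq (x * y) (s * s') (St.mul_mem hs hs') ?_, haddS s hs]
    · ring
    · have h1 := N.mul_mem (hnorm s' hs' _ hsx) hsy
      have h2 : s'⁻¹ * (s⁻¹ * x) * s' * (s'⁻¹ * y) = (s * s')⁻¹ * (x * y) := by group
      rwa [h2] at h1
  have hqN : ∀ x ∈ N, q x = 0 := by
    intro x hx
    rw [hq x 1 St.one_mem (by simpa using hx), hf1, neg_zero]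
  have hq1 : q 1 = 0 := hqN 1 N.one_mem
  have hqinv : ∀ x ∈ H, q x⁻¹ = - q x := by
    intro x hx
    have := hqadd x hx x⁻¹ (H.inv_mem hx)
    rw [mul_inv_cancel, hq1] at this
    omega
  have hqpow : ∀ x ∈ H, ∀ k : ℕ, q (x ^ k) = k * q x := by
    intro x hx k
    induction k with
    | zero => rw [pow_zero, hq1]; simp
    | succ k ih => rw [pow_succ', hqadd x hx _ (H.pow_mem hx k), ih]; push_cast; ring
  have hwSt : w ∈ St := (hSt w).2 ⟨hwG, hwf⟩
  have hwH : w ∈ H := ⟨w, hwSt, by simp⟩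
  have hqw : q w = - f w := hq w w hwSt (by simp)
  -- the length of conjugates of powers
  have hLpow : ∀ x : G, ∀ k : ℕ, dd 1 ((t i)⁻¹ * x ^ k * t i) ≤ k * dd 1 ((t i)⁻¹ * x * t i) := by
    intro x k
    induction k with
    | zero => simp [h.self]
    | succ k ih =>
      have h1 := h.tri 1 ((t i)⁻¹ * x ^ k * t i) ((t i)⁻¹ * x ^ (k + 1) * t i)
      have h2 := hinv ((t i)⁻¹ * x ^ k * t i) 1 ((t i)⁻¹ * x * t i)
      have h3 : (t i)⁻¹ * x ^ k * t i * ((t i)⁻¹ * x * t i) = (t i)⁻¹ * x ^ (k + 1) * t i := by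
        rw [pow_succ]; group
      rw [mul_one, h3] at h2
      rw [Nat.add_mul, one_mul]
      omega
  have hLinv : ∀ x : G, dd 1 ((t i)⁻¹ * x⁻¹ * t i) = dd 1 ((t i)⁻¹ * x * t i) := by
    intro x
    rw [← hinvlen ((t i)⁻¹ * x * t i)]
    congr 1
    group
  have hlip : ∀ x ∈ H, - q x ≤ dd 1 ((t i)⁻¹ * x * t i) := by
    intro x hx
    have hti := hcT _ (htT i)
    have hall : ∀ k : ℕ, (k : ℤ) * (- q x) ≤ k * dd 1 ((t i)⁻¹ * x * t i) + (4 * c : ℤ) := by
      intro k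
      obtain ⟨s, hs, hsx⟩ := H.pow_mem hx k
      have h1 := hq _ s hs hsx
      rw [hqpow x hx] at h1
      have h2 := haddS s hs (s⁻¹ * x ^ k)
      rw [mul_inv_cancel_left] at h2
      have h3 := hfN _ hsx
      have h4 := bd_val_le h f hfK (x ^ k) (t i)
      have h5 := bd_le_len h f hfK (t i)
      have h6 := h.tri (x ^ k) (x ^ k * t i) (t i)
      have h7 := hinv (x ^ k) 1 (t i)
      rw [mul_one] at h7
      have h8 := hinv (t i)⁻¹ (x ^ k * t i) (t i)
      rw [inv_mul_cancel, ← mul_assoc, h.symm _ 1] at h8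
      have h9 := hLpow x k
      have h10 : ((k * dd 1 ((t i)⁻¹ * x * t i) : ℕ) : ℤ) =
          (k : ℤ) * (dd 1 ((t i)⁻¹ * x * t i) : ℤ) := by push_cast; ring
      rw [← h10]
      have h11 : (k : ℤ) * (- q x) = - ((k : ℤ) * q x) := by ring
      rw [h11, h1]
      omega
    by_contra hcon
    have h1 := hall (4 * c + 1)
    have h2 : (dd 1 ((t i)⁻¹ * x * t i) : ℤ) + 1 ≤ - q x := by omega
    have h3 : ((4 * c + 1 : ℕ) : ℤ) * ((dd 1 ((t i)⁻¹ * x * t i) : ℤ) + 1) ≤
        ((4 * c + 1 : ℕ) : ℤ) * (- q x) := mul_le_mul_of_nonneg_left h2 (by positivity)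
    push_cast at h1 h3
    linarith
  have hfw : f w = - ((j - i : ℕ) : ℤ) := by
    have h1 := haddS w hwSt (t i)
    have h2 : f (w * t i) = b (z j) - b (g i) := by
      rw [hfdef]
      simp only [tr, inv_inv]
      rw [hw, htij, ← hgt j]
      congr 2
      group
    have h3 : f (t i) = b (z i) - b (g i) := by
      rw [hfdef]
      simp only [tr, inv_inv]
      rw [← hgt i]
    rw [hz1] at h2 h3
    omega
  have hLw : dd 1 ((t i)⁻¹ * w * t i) = j - i := by
    have h1 := hinv (z i) 1 ((t i)⁻¹ * w * t i)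
    have h2 : z i * ((t i)⁻¹ * w * t i) = z j := by
      rw [← hgt j, ← htij, hw, ← hgt i]
      group
    rw [mul_one, h2, hz2 i j hlt.le] at h1
    exact h1.symm
  refine ⟨t i, htT i, H, hNH, hHG, hHfin, q, hqadd, hqN, ?_, w, hwH, ?_, ?_⟩
  · intro x hx
    rw [abs_le]
    have h1 := hlip x hx
    have h2 := hlip x⁻¹ (H.inv_mem hx)
    rw [hqinv x hx, hLinv] at h2
    constructor <;> omega
  · rintro rfl
    rw [hf1] at hfw
    omega
  · rw [hqw, hfw, hLw]
    omega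

end Pool.Agent.Lib.MP_eca5e6_al
end
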