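import Pool.Agent.Lib.MP_eca5e6_al.Dyn

set_option autoImplicit false

namespace Pool.Agent.Lib.MP_eca5e6_al.UndistortedQuotients

open Pool.Agent.Lib.MP_eca5e6_al

/-- Let a finitely generated group `G` have, for some finite generating set, a countable
horofunction boundary (the pointwise closure of the functions `z ↦ d(z,x) - d(1,x)` for the word
metric, minus those functions themselves).  Then for every normal subgroup `N` of infinite index
there is an element `w ≠ 1` such that every element of the coset `w ^ k * N` has word length at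
least `k` times the word length of `w`. In particular `G ⧸ N` is not a torsion group. -/
theorem result :
    ∀ (G : Type) [Group G] (S : Finset G),
      Subgroup.closure (S : Set G) = ⊤ →
      ∀ Γ : SimpleGraph G, Γ = SimpleGraph.fromRel (fun g h : G => g⁻¹ * h ∈ S) →
      ∀ A : Set (G → ℤ),
        A = Set.range (fun x : G => fun z : G => ((Γ.dist z x : ℕ) : ℤ) - ((Γ.dist 1 x : ℕ) : ℤ)) →
        (closure A \ A).Countable →
        ∀ (N : Subgroup G) [N.Normal], Infinite (G ⧸ N) →
          ∃ w : G, w ≠ 1 ∧ ∀ k : ℕ, ∀ m ∈ N, k * Γ.dist 1 w ≤ Γ.dist 1 (w ^ k * m) := by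
  intro G _ S hS Γ hΓ A hA hc N _ hN
  subst hA
  exact quotient_undistorted (cay_geoDist hS hΓ) (cay_dist_mul hS hΓ) hc N

end Pool.Agent.Lib.MP_eca5e6_al.UndistortedQuotients
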