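import Pool.Agent.Lib.MP_eca5e6_al.Dyn

set_option autoImplicit false

namespace Pool.Agent.Lib.MP_eca5e6_al.VirtuallyIndicable

open Pool.Agent.Lib.MP_eca5e6_al

/-- If an infinite finitely generated group has, for some finite generating set, a countable
horofunction boundary (the pointwise closure of the functions `z ↦ d(z,x) - d(1,x)` for the word
metric, minus those functions themselves), then it has a finite-index subgroup that maps onto
`ℤ`. -/
theorem result :
    ∀ (G : Type) [Group G] [Infinite G] (S : Finset G),
      Subgroup.closure (S : Set G) = ⊤ →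
      ∀ Γ : SimpleGraph G, Γ = SimpleGraph.fromRel (fun g h : G => g⁻¹ * h ∈ S) →
      ∀ A : Set (G → ℤ),
        A = Set.range (fun x : G => fun z : G => ((Γ.dist z x : ℕ) : ℤ) - ((Γ.dist 1 x : ℕ) : ℤ)) →
        (closure A \ A).Countable →
        ∃ H : Subgroup G, H.FiniteIndex ∧
          ∃ φ : H →* Multiplicative ℤ, Function.Surjective φ := by
  intro G _ _ S hS Γ hΓ A hA hc
  subst hA
  exact virtually_indicable (cay_geoDist hS hΓ) (cay_dist_mul hS hΓ) hc

end Pool.Agent.Lib.MP_eca5e6_al.VirtuallyIndicable
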